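import Pool.Agent.H48.TN.Tools

/-!
Module ORT of the board `tn_modules`: almost orthogonality of the bands.
-/

set_option autoImplicit false

namespace Pool.Agent.H48.TN

open MeasureTheory Set FourierTransform
open Pool.Agent.H93.TN Pool.Agent.H83.LS Pool.Agent.H93.AR Pool.Agent.H54.LS Pool.Agent.H14.LS
open Pool.Agent.H83.AR Pool.Agent.H84.BR Pool.Agent.H84.B2
open scoped ENNReal NNReal

section

variable {n : ℕ}

theorem ort_sy_joint {Lam : ℝ} (r : ℝ) (hL : 0 < Lam) :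
    Continuous (fun q : Sp n × EE n => sy n ch2 Lam r (q.1 : EE n) q.2) := by
  have h2 : Continuous (fun q : Sp n × EE n => (((q.1 : EE n), q.2) : EE n × EE n)) := by
    fun_prop
  have h4 : (fun q : Sp n × EE n => sy n ch2 Lam r (q.1 : EE n) q.2) =
      (fun q : EE n × EE n => sy n ch2 Lam r q.1 q.2) ∘
        (fun q : Sp n × EE n => (((q.1 : EE n), q.2) : EE n × EE n)) := rfl
  rw [h4]
  exact (sy_cont rc_ch2 r hL).comp h2

/-- the square integral of the symbols over the sphere -/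
theorem ort_inner {C : ℝ} {Lam r : ℝ} (hr : 0 < r)
    (hm : ∀ u : EE n, ‖u‖ = 1 → sg n {w : Sp n | ‖u - w‖ ≤ 6 * r} ≤
      ENNReal.ofReal (C * r ^ (n - 1))) (ξ : EE n) :
    ∫⁻ u : Sp n, ‖sy n ch2 Lam r (u : EE n) ξ‖ₑ ^ 2 ∂(sg n) ≤
      ENNReal.ofReal (C * r ^ (n - 1)) := by
  by_cases hξ : ξ = 0
  · subst hξ
    have h1 : ∀ u : Sp n, ‖sy n ch2 Lam r (u : EE n) 0‖ₑ ^ 2 = 0 := by
      intro u
      have h2 : sy n ch2 Lam r (u : EE n) 0 = 0 := by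
        unfold sy
        rw [norm_zero, zero_div, ch2_zero, zero_mul, Complex.ofReal_zero]
      rw [h2, enorm_zero]
      simp
    simp_rw [h1]
    rw [lintegral_zero]
    exact zero_le
  · have h1 : ‖‖ξ‖⁻¹ • ξ‖ = 1 := by
      rw [norm_smul, norm_inv, norm_norm, inv_mul_cancel₀ (norm_ne_zero_iff.2 hξ)]
    refine le_trans ?_ (hm _ h1)
    have hms : MeasurableSet {w : Sp n | ‖‖ξ‖⁻¹ • ξ - w‖ ≤ 6 * r} := by
      apply IsClosed.measurableSet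
      exact isClosed_le ((continuous_const.sub continuous_subtype_val).norm) continuous_const
    rw [← lintegral_indicator_one hms]
    refine lintegral_mono fun u => ?_
    by_cases h2 : sy n ch2 Lam r (u : EE n) ξ = 0
    · rw [h2, enorm_zero]
      simp
    · have h3 : u ∈ {w : Sp n | ‖‖ξ‖⁻¹ • ξ - w‖ ≤ 6 * r} := by
        rw [Set.mem_ofPred_eq]
        by_contra h4
        push Not at h4
        apply h2
        unfold sy
        have h5 : (2 : ℝ) ≤ (‖‖ξ‖⁻¹ • ξ - (u : EE n)‖ / r) ^ 2 := by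
          have h6 : 6 ≤ ‖‖ξ‖⁻¹ • ξ - (u : EE n)‖ / r := by
            rw [le_div_iff₀ hr]
            exact h4.le
          nlinarith
        rw [eta_zero h5, mul_zero, Complex.ofReal_zero]
      rw [Set.indicator_of_mem h3]
      have h4 := sy_norm ch2_nonneg ch2_le_one Lam r (u : EE n) ξ
      have h5 : ‖sy n ch2 Lam r (u : EE n) ξ‖ₑ ≤ 1 := by
        rw [← ofReal_norm, ← ENNReal.ofReal_one]
        exact ENNReal.ofReal_le_ofReal h4
      calc ‖sy n ch2 Lam r (u : EE n) ξ‖ₑ ^ 2 ≤ 1 ^ 2 := by gcongr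
        _ = 1 := one_pow _

theorem sq_fin {f : EE n → ℂ} (hf : Integrable f) {A : ℝ} (hA : ∀ x, ‖f x‖ ≤ A) :
    ∫⁻ y, ‖f y‖ₑ ^ 2 ≠ ⊤ := by
  have h1 : ∫⁻ y, ‖f y‖ₑ ^ 2 ≤ ∫⁻ y, ENNReal.ofReal A * ‖f y‖ₑ := by
    refine lintegral_mono fun y => ?_
    rw [pow_two]
    have : ‖f y‖ₑ ≤ ENNReal.ofReal A := by
      rw [← ofReal_norm]
      exact ENNReal.ofReal_le_ofReal (hA y)
    gcongr
  rw [lintegral_const_mul' _ _ ENNReal.ofReal_ne_top] at h1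
  exact (h1.trans_lt (ENNReal.mul_lt_top ENNReal.ofReal_lt_top hf.2)).ne

/-- Plancherel for one band -/
theorem ort_planch (hPLE : T_PLE) {Lam r : ℝ} (hL : 0 < Lam) {f : EE n → ℂ} (hfm : Measurable f)
    (hf : Integrable f) {A : ℝ} (hA : ∀ x, ‖f x‖ ≤ A) (u : EE n) :
    ∫⁻ x, ‖Qb n Lam r u f x‖ₑ ^ 2 = ∫⁻ ξ, ‖sy n ch2 Lam r u ξ * 𝓕 f ξ‖ₑ ^ 2 := by
  have hs : ∀ ξ, ‖sy n ch2 Lam r u ξ‖ ≤ 1 := sy_norm ch2_nonneg ch2_le_one Lam r u
  have hsi : Integrable (sy n ch2 Lam r u) := sy_int rc_ch2 r hL u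
  have hsc : Continuous (sy n ch2 Lam r u) := sy_cont' rc_ch2 r hL u
  have hfc : Continuous (𝓕 f) := Pool.Agent.H19.LS.fourier_cont f hf
  have hfb : ∀ ξ, ‖𝓕 f ξ‖ ≤ ∫ y, ‖f y‖ := by
    intro ξ
    rw [Pool.Agent.H19.LS.fourier_e]
    refine (norm_integral_le_integral_norm _).trans (le_of_eq ?_)
    refine integral_congr_ae (ae_of_all _ fun y => ?_)
    simp only
    rw [norm_mul, norm_e, one_mul]
  have hh1 : Integrable fun ξ => sy n ch2 Lam r u ξ * 𝓕 f ξ :=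
    hsi.mul_bdd (c := ∫ y, ‖f y‖) hfc.aestronglyMeasurable (ae_of_all _ hfb)
  have hf2 : MemLp f 2 :=
    Pool.Agent.H19.LS.memLp_two_of f hf.aestronglyMeasurable (sq_fin hf hA)
  have h2 : ∫⁻ ξ, ‖sy n ch2 Lam r u ξ * 𝓕 f ξ‖ₑ ^ 2 ≤ ∫⁻ y, ‖f y‖ₑ ^ 2 := by
    rw [← Pool.Agent.H19.LS.plancherelE f hf hf2]
    refine lintegral_mono fun ξ => ?_
    rw [enorm_mul, mul_pow]
    have h3 : ‖sy n ch2 Lam r u ξ‖ₑ ≤ 1 := by
      rw [← ofReal_norm, ← ENNReal.ofReal_one]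
      exact ENNReal.ofReal_le_ofReal (hs ξ)
    calc ‖sy n ch2 Lam r u ξ‖ₑ ^ 2 * ‖𝓕 f ξ‖ₑ ^ 2 ≤ 1 ^ 2 * ‖𝓕 f ξ‖ₑ ^ 2 := by gcongr
      _ = _ := by rw [one_pow, one_mul]
  have h4 : MemLp (fun ξ => sy n ch2 Lam r u ξ * 𝓕 f ξ) 2 :=
    Pool.Agent.H19.LS.memLp_two_of _ (hsc.aestronglyMeasurable.mul hfc.aestronglyMeasurable)
      (h2.trans_lt (sq_fin hf hA).lt_top).ne
  have h5 : ∀ x, Qb n Lam r u f x = 𝓕 (fun ξ => sy n ch2 Lam r u ξ * 𝓕 f ξ) (-x) := by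
    intro x
    have h6 := (hPLE n (sy n ch2 Lam r u) f hsc.measurable hs hsi hf ⟨A, hA⟩ hfm).1 x
    rw [Pool.Agent.H19.LS.MM_fourier] at h6
    exact h6.symm
  calc ∫⁻ x, ‖Qb n Lam r u f x‖ₑ ^ 2 =
      ∫⁻ x, ‖𝓕 (fun ξ => sy n ch2 Lam r u ξ * 𝓕 f ξ) (-x)‖ₑ ^ 2 := by
        refine lintegral_congr fun x => ?_
        rw [h5]
    _ = ∫⁻ x, ‖𝓕 (fun ξ => sy n ch2 Lam r u ξ * 𝓕 f ξ) x‖ₑ ^ 2 :=
        lintegral_neg_eq_self (μ := (volume : Measure (EE n)))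
          fun x => ‖𝓕 (fun ξ => sy n ch2 Lam r u ξ * 𝓕 f ξ) x‖ₑ ^ 2
    _ = _ := Pool.Agent.H19.LS.plancherelE _ hh1 h4

theorem ort_one (hPLE : T_PLE) {C : ℝ} {Lam r : ℝ} (hL : 0 < Lam) (hr : 0 < r)
    (hm : ∀ u : EE n, ‖u‖ = 1 → sg n {w : Sp n | ‖u - w‖ ≤ 6 * r} ≤
      ENNReal.ofReal (C * r ^ (n - 1))) {f : EE n → ℂ} (hfm : Measurable f)
    (hf : Integrable f) {A : ℝ} (hA : ∀ x, ‖f x‖ ≤ A) :
    ∫⁻ u : Sp n, ∫⁻ x, ‖Qb n Lam r (u : EE n) f x‖ₑ ^ 2 ∂volume ∂(sg n) ≤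
      ENNReal.ofReal (C * r ^ (n - 1)) * ∫⁻ x, ‖f x‖ₑ ^ 2 := by
  have hfc : Continuous (𝓕 f) := Pool.Agent.H19.LS.fourier_cont f hf
  have hf2 : MemLp f 2 :=
    Pool.Agent.H19.LS.memLp_two_of f hf.aestronglyMeasurable (sq_fin hf hA)
  have h1 : ∀ u : Sp n, ∫⁻ x, ‖Qb n Lam r (u : EE n) f x‖ₑ ^ 2 =
      ∫⁻ ξ, ‖sy n ch2 Lam r (u : EE n) ξ * 𝓕 f ξ‖ₑ ^ 2 :=
    fun u => ort_planch hPLE hL hfm hf hA u
  simp_rw [h1]
  have hjm : Measurable (fun q : Sp n × EE n => ‖sy n ch2 Lam r (q.1 : EE n) q.2 * 𝓕 f q.2‖ₑ ^ 2) := by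
    have h2 : Continuous (fun q : Sp n × EE n => sy n ch2 Lam r (q.1 : EE n) q.2 * 𝓕 f q.2) :=
      (ort_sy_joint r hL).mul (hfc.comp continuous_snd)
    exact h2.measurable.enorm.pow_const 2
  rw [lintegral_lintegral_swap hjm.aemeasurable]
  calc ∫⁻ ξ, ∫⁻ u : Sp n, ‖sy n ch2 Lam r (u : EE n) ξ * 𝓕 f ξ‖ₑ ^ 2 ∂(sg n) ≤
      ∫⁻ ξ, ENNReal.ofReal (C * r ^ (n - 1)) * ‖𝓕 f ξ‖ₑ ^ 2 := by
        refine lintegral_mono fun ξ => ?_
        simp only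
        simp_rw [enorm_mul, mul_pow]
        rw [lintegral_mul_const' _ _ (by simp)]
        gcongr
        exact ort_inner hr hm ξ
    _ = _ := by
        rw [lintegral_const_mul' _ _ ENNReal.ofReal_ne_top,
          Pool.Agent.H19.LS.plancherelE f hf hf2]

end

theorem pf_ort (hCNC : T_CNC) (hSEL : T_SEL) (hMDL : T_MDL) (hPLE : T_PLE) : T_ORT := by
  intro n hn
  obtain ⟨C, hC, hmd⟩ := hMDL n hn
  refine ⟨C.toNNReal, fun Lam r A f hL hr hr8 hf hA => ?_⟩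
  have hm : ∀ u : EE n, ‖u‖ = 1 → sg n {w : Sp n | ‖u - w‖ ≤ 6 * r} ≤
      ENNReal.ofReal (C * r ^ (n - 1)) := fun u hu => ((hmd r hr hr8).2 u hu).2.2.2
  have hCC : (C.toNNReal : ℝ≥0∞) * ENNReal.ofReal (r ^ (n - 1)) =
      ENNReal.ofReal (C * r ^ (n - 1)) := by
    rw [ENNReal.ofReal_mul hC.le]
    rfl
  rw [hCC]
  have hA0 : 0 ≤ A := (norm_nonneg _).trans (hA 0)
  obtain ⟨B, hB, hdec⟩ := dec hSEL hn rc_ch2 hL hr hr8
  set g : ℕ → EE n → ℂ := fun k => (Metric.closedBall (0 : EE n) k).indicator f with hg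
  have hgm : ∀ k, Measurable (g k) := fun k => hf.indicator measurableSet_closedBall
  have hgA : ∀ k x, ‖g k x‖ ≤ A := fun k x => (norm_indicator_le_norm_self _ _).trans (hA x)
  have hgi : ∀ k, Integrable (g k) := by
    intro k
    refine ((ball_int (n := n) k).const_mul A).mono' (hgm k).aestronglyMeasurable
      (ae_of_all _ fun x => ?_)
    by_cases hx : x ∈ Metric.closedBall (0 : EE n) k
    · rw [Set.indicator_of_mem hx, mul_one]
      exact hgA k x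
    · simp only [hg]
      rw [Set.indicator_of_notMem hx, Set.indicator_of_notMem hx, norm_zero, mul_zero]
  have hgle : ∀ k, ∫⁻ x, ‖g k x‖ₑ ^ 2 ≤ ∫⁻ x, ‖f x‖ₑ ^ 2 := by
    intro k
    refine lintegral_mono fun x => ?_
    have h1 : ‖g k x‖ₑ ≤ ‖f x‖ₑ := enorm_indicator_le_enorm_self _ _
    gcongr
  have hone : ∀ k, ∫⁻ q : Sp n × EE n, ‖Qb n Lam r (q.1 : EE n) (g k) q.2‖ₑ ^ 2
      ∂((sg n).prod volume) ≤ ENNReal.ofReal (C * r ^ (n - 1)) * ∫⁻ x, ‖f x‖ₑ ^ 2 := by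
    intro k
    have hc := band_cont hSEL hn rc_ch2 ch2_nonneg ch2_le_one hL hr hr8 (hgm k) (hgA k)
    have hmk : Measurable (fun q : Sp n × EE n => ‖Qb n Lam r (q.1 : EE n) (g k) q.2‖ₑ ^ 2) :=
      hc.measurable.enorm.pow_const 2
    rw [lintegral_prod _ hmk.aemeasurable]
    refine (ort_one hPLE hL hr hm (hgm k) (hgi k) (hgA k)).trans ?_
    exact mul_le_mul_right (hgle k) _
  have hcf := band_cont hSEL hn rc_ch2 ch2_nonneg ch2_le_one hL hr hr8 hf hA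
  have hmf : Measurable (fun q : Sp n × EE n => ‖Qb n Lam r (q.1 : EE n) f q.2‖ₑ ^ 2) :=
    hcf.measurable.enorm.pow_const 2
  have hlim : ∀ q : Sp n × EE n, Filter.Tendsto
      (fun k => Qb n Lam r (q.1 : EE n) (g k) q.2) Filter.atTop
      (nhds (Qb n Lam r (q.1 : EE n) f q.2)) := by
    intro q
    unfold Qb cn
    have hc1 : Continuous (fun y : EE n => MK (sy n ch2 Lam r (q.1 : EE n)) (q.2 - y)) := by
      have h2 : Continuous (fun y : EE n => (((q.1 : EE n), q.2 - y) : EE n × EE n)) := by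
        fun_prop
      have h4 : (fun y : EE n => MK (sy n ch2 Lam r (q.1 : EE n)) (q.2 - y)) =
          (fun q : EE n × EE n => MK (sy n ch2 Lam r q.1) q.2) ∘
            (fun y : EE n => (((q.1 : EE n), q.2 - y) : EE n × EE n)) := rfl
      rw [h4]
      exact (MK_cont rc_ch2 ch2_nonneg ch2_le_one r hL).comp h2
    refine tendsto_integral_of_dominated_convergence
      (fun y => B * A * ((1 + ‖q.2 - y‖) ^ (n + 1))⁻¹) ?_ ?_ ?_ ?_
    · exact fun k => (hc1.measurable.mul (hgm k)).aestronglyMeasurable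
    · exact ((wt_int (n := n)).comp_sub_left q.2).const_mul _
    · intro k
      refine ae_of_all _ fun y => ?_
      rw [norm_mul]
      calc ‖MK (sy n ch2 Lam r (q.1 : EE n)) (q.2 - y)‖ * ‖g k y‖ ≤
          (B * ((1 + ‖q.2 - y‖) ^ (n + 1))⁻¹) * A :=
            mul_le_mul (hdec _ (mem_sphere_zero_iff_norm.1 q.1.2) _) (hgA k y) (norm_nonneg _)
              (by positivity)
        _ = B * A * ((1 + ‖q.2 - y‖) ^ (n + 1))⁻¹ := by ring
    · refine ae_of_all _ fun y => ?_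
      refine tendsto_const_nhds.congr' ?_
      obtain ⟨k₀, hk₀⟩ := exists_nat_ge ‖y‖
      filter_upwards [Filter.eventually_ge_atTop k₀] with k hk
      have hy : y ∈ Metric.closedBall (0 : EE n) k := by
        rw [mem_closedBall_zero_iff]
        exact hk₀.trans (by exact_mod_cast hk)
      simp only [hg]
      rw [Set.indicator_of_mem hy]
  have hlim2 : ∀ q : Sp n × EE n, ‖Qb n Lam r (q.1 : EE n) f q.2‖ₑ ^ 2 =
      Filter.liminf (fun k => ‖Qb n Lam r (q.1 : EE n) (g k) q.2‖ₑ ^ 2) Filter.atTop := by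
    intro q
    refine (Filter.Tendsto.liminf_eq ?_).symm
    exact ((ENNReal.continuous_pow 2).tendsto _).comp
      ((continuous_enorm.tendsto _).comp (hlim q))
  rw [← lintegral_prod _ hmf.aemeasurable]
  calc ∫⁻ q : Sp n × EE n, ‖Qb n Lam r (q.1 : EE n) f q.2‖ₑ ^ 2 ∂((sg n).prod volume) =
      ∫⁻ q : Sp n × EE n, Filter.liminf
        (fun k => ‖Qb n Lam r (q.1 : EE n) (g k) q.2‖ₑ ^ 2) Filter.atTop
        ∂((sg n).prod volume) := lintegral_congr hlim2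
    _ ≤ Filter.liminf (fun k => ∫⁻ q : Sp n × EE n,
        ‖Qb n Lam r (q.1 : EE n) (g k) q.2‖ₑ ^ 2 ∂((sg n).prod volume)) Filter.atTop := by
        refine lintegral_liminf_le fun k => ?_
        exact (band_cont hSEL hn rc_ch2 ch2_nonneg ch2_le_one hL hr hr8 (hgm k)
          (hgA k)).measurable.enorm.pow_const 2
    _ ≤ Filter.liminf (fun _ : ℕ => ENNReal.ofReal (C * r ^ (n - 1)) * ∫⁻ x, ‖f x‖ₑ ^ 2)
        Filter.atTop := Filter.liminf_le_liminf (Filter.Eventually.of_forall hone)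
    _ = _ := Filter.liminf_const _

end Pool.Agent.H48.TN
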