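import Pool.Agent.H48.TN.Tools

/-!
Module SID of the board `tn_modules`: reproducing formulas for the bands.
-/

set_option autoImplicit false

namespace Pool.Agent.H48.TN

open MeasureTheory Set FourierTransform
open Pool.Agent.H93.TN Pool.Agent.H83.LS Pool.Agent.H93.AR Pool.Agent.H54.LS Pool.Agent.H14.LS
open Pool.Agent.H83.AR Pool.Agent.H84.BR Pool.Agent.H84.B2
open scoped ENNReal NNReal

/-- the radial symbol -/
noncomputable def cz (n : ℕ) (Lam : ℝ) (ξ : EE n) : ℂ := ((chis (‖ξ‖ / Lam) : ℝ) : ℂ)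

theorem sy_mul_cz (n : ℕ) (Lam r : ℝ) (u ξ : EE n) :
    sy n ch2 Lam r u ξ * cz n Lam ξ = sy n chis Lam r u ξ := by
  unfold sy cz
  rw [← Complex.ofReal_mul]
  congr 1
  calc ch2 (‖ξ‖ / Lam) * eta0 ((‖‖ξ‖⁻¹ • ξ - u‖ / r) ^ 2) * chis (‖ξ‖ / Lam) =
      (ch2 (‖ξ‖ / Lam) * chis (‖ξ‖ / Lam)) * eta0 ((‖‖ξ‖⁻¹ • ξ - u‖ / r) ^ 2) := by ring
    _ = _ := by rw [ch2_chis]

theorem sy_mul_sy (n : ℕ) (Lam r : ℝ) (u ξ : EE n) :
    sy n ch2 Lam (2 * r) u ξ * sy n chis Lam r u ξ = sy n chis Lam r u ξ := by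
  unfold sy
  rw [← Complex.ofReal_mul]
  congr 1
  by_cases h : eta0 ((‖‖ξ‖⁻¹ • ξ - u‖ / r) ^ 2) = 0
  · rw [h, mul_zero, mul_zero]
  · have h1 : (‖‖ξ‖⁻¹ • ξ - u‖ / r) ^ 2 < 2 := by
      by_contra h2
      exact h (eta_zero (not_lt.1 h2))
    have h2 : (‖‖ξ‖⁻¹ • ξ - u‖ / (2 * r)) ^ 2 ≤ 1 := by
      have h3 : (‖‖ξ‖⁻¹ • ξ - u‖ / (2 * r)) ^ 2 = (‖‖ξ‖⁻¹ • ξ - u‖ / r) ^ 2 / 4 := by
        rw [mul_comm 2 r, ← div_div, div_pow]
        norm_num
      rw [h3]
      linarith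
    rw [eta_one h2, mul_one, ← mul_assoc, ch2_chis]

theorem sc_mul {n : ℕ} {s₁ s₂ : EE n → ℂ} (h₁ : SC s₁) (h₂ : SC s₂) :
    SC (fun ξ => s₁ ξ * s₂ ξ) := ⟨h₁.1.mul h₂.1, h₁.2.mul_right⟩

theorem sy_zero (n : ℕ) {ψ : ℝ → ℝ} (hψ : ψ 0 = 0) (Lam r : ℝ) (u : EE n) :
    sy n ψ Lam r u 0 = 0 := by
  unfold sy
  rw [norm_zero, zero_div, hψ, zero_mul, Complex.ofReal_zero]

/-- the average of the sector symbols -/
theorem avg_sy (hMDL : T_MDL) {n : ℕ} (hn : 1 ≤ n) {Lam r : ℝ} (hr : 0 < r) (hr' : r ≤ 1 / 8)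
    {u₀ : EE n} (hu : ‖u₀‖ = 1) (ξ : EE n) :
    ∫ u : Sp n, sy n chis Lam r (u : EE n) ξ ∂(sg n) = cz n Lam ξ * ((md n r u₀ : ℝ) : ℂ) := by
  by_cases hξ : ξ = 0
  · subst hξ
    have h1 : ∀ u : Sp n, sy n chis Lam r (u : EE n) 0 = 0 := fun u => sy_zero n chis_zero _ _ _
    simp_rw [h1]
    unfold cz
    rw [norm_zero, zero_div, chis_zero]
    simp
  · have h1 : ‖‖ξ‖⁻¹ • ξ‖ = 1 := by
      rw [norm_smul, norm_inv, norm_norm, inv_mul_cancel₀ (norm_ne_zero_iff.2 hξ)]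
    obtain ⟨C, -, hC⟩ := hMDL n hn
    rw [(hC r hr hr').1 u₀ (‖ξ‖⁻¹ • ξ) hu h1]
    unfold sy cz md
    rw [integral_complex_ofReal, integral_const_mul, Complex.ofReal_mul]

/-- the average of the kernels -/
theorem avg_MK (hMDL : T_MDL) {n : ℕ} (hn : 1 ≤ n) {Lam r : ℝ} (hL : 0 < Lam) (hr : 0 < r)
    (hr' : r ≤ 1 / 8) {u₀ : EE n} (hu : ‖u₀‖ = 1) (z : EE n) :
    ∫ u : Sp n, MK (sy n chis Lam r (u : EE n)) z ∂(sg n) =
      ((md n r u₀ : ℝ) : ℂ) * MK (cz n Lam) z := by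
  unfold MK
  have hI : Integrable (Function.uncurry fun (u : Sp n) (ξ : EE n) =>
      e (inner ℝ z ξ) * sy n chis Lam r (u : EE n) ξ) ((sg n).prod volume) := by
    refine ((ball_int (n := n) (8 * Lam)).comp_snd (sg n)).mono' ?_ ?_
    · have h1 : Continuous (fun q : Sp n × EE n => e (inner ℝ z q.2)) :=
        continuous_e.comp (continuous_const.inner continuous_snd)
      have h2 : Continuous (fun q : Sp n × EE n => (((q.1 : EE n), q.2) : EE n × EE n)) := by
        fun_prop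
      have h3 : Continuous (fun q : Sp n × EE n => sy n chis Lam r (q.1 : EE n) q.2) := by
        have h4 : (fun q : Sp n × EE n => sy n chis Lam r (q.1 : EE n) q.2) =
            (fun q : EE n × EE n => sy n chis Lam r q.1 q.2) ∘
              (fun q : Sp n × EE n => (((q.1 : EE n), q.2) : EE n × EE n)) := rfl
        rw [h4]
        exact (sy_cont rc_chis r hL).comp h2
      exact (h1.mul h3).aestronglyMeasurable
    · refine ae_of_all _ fun q => ?_
      rw [Function.uncurry, norm_mul, norm_e, one_mul]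
      by_cases h : sy n chis Lam r (q.1 : EE n) q.2 = 0
      · rw [h, norm_zero]
        exact Set.indicator_nonneg (fun _ _ => zero_le_one) _
      · rw [Set.indicator_of_mem (mem_closedBall_zero_iff.2 (sy_supp rc_chis hL h).2)]
        exact sy_norm chis_nonneg chis_le_one _ _ _ _
  rw [integral_integral_swap hI, ← integral_const_mul]
  refine integral_congr_ae (ae_of_all _ fun ξ => ?_)
  simp only
  rw [integral_const_mul, avg_sy hMDL hn hr hr' hu]
  ring

theorem pf_sid (hCNC : T_CNC) (hSEL : T_SEL) (hRAD : T_RAD) (hMDL : T_MDL) : T_SID := by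
  intro n Lam r M v hn hL hr hr16 hv hM hC0
  have hr8 : r ≤ 1 / 8 := hr16.trans (by norm_num)
  obtain ⟨_, _, hR⟩ := hRAD n 0 chis hn rc_chis
  obtain ⟨_, _, hS2⟩ := hSEL n 0 ch2 hn rc_ch2
  obtain ⟨_, _, hSs⟩ := hSEL n 0 chis hn rc_chis
  have hcz : SC (cz n Lam) := (hR Lam hL).1
  have hv0 : cn (MK (cz n Lam)) v = v := funext hC0
  have key : ∀ u : EE n, ‖u‖ = 1 → Qb n Lam r u v = cn (MK (sy n chis Lam r u)) v := by
    intro u hu
    funext x
    have hs := (hS2 Lam r u hL hr hr8 hu).1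
    have h1 := (hCNC n (sy n ch2 Lam r u) (cz n Lam) v M hs hcz hv hM).2.2.2.2.1 x
    rw [hv0] at h1
    have h2 : (fun ξ => sy n ch2 Lam r u ξ * cz n Lam ξ) = sy n chis Lam r u :=
      funext fun ξ => sy_mul_cz n Lam r u ξ
    rw [h2] at h1
    exact h1
  refine ⟨fun u x hu => ?_, fun u x hu => ?_, fun u₀ x hu => ?_, ?_⟩
  · rw [key u hu]
    have hs := (hS2 Lam (2 * r) u hL (by linarith) (by linarith) hu).1
    have h1 := (hCNC n (sy n ch2 Lam (2 * r) u) (sy n chis Lam r u) v M hs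
      (hSs Lam r u hL hr hr8 hu).1 hv hM).2.2.2.2.1 x
    have h2 : (fun ξ => sy n ch2 Lam (2 * r) u ξ * sy n chis Lam r u ξ) = sy n chis Lam r u :=
      funext fun ξ => sy_mul_sy n Lam r u ξ
    rw [h2] at h1
    exact h1
  · have hs := (hS2 Lam r u hL hr hr8 hu).1
    have h1 := (hCNC n (cz n Lam) (sy n ch2 Lam r u) v M hcz hs hv hM).2.2.2.2.1 x
    have h2 : (fun ξ => cz n Lam ξ * sy n ch2 Lam r u ξ) = sy n chis Lam r u :=
      funext fun ξ => by rw [mul_comm, sy_mul_cz]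
    rw [h2] at h1
    have h3 := congrFun (key u hu) x
    rw [h3]
    exact h1
  · obtain ⟨C, hC, hdec⟩ := dec hSEL hn rc_chis hL hr hr8
    have h1 : ∀ u : Sp n, Qb n Lam r (u : EE n) v x =
        ∫ y, MK (sy n chis Lam r (u : EE n)) (x - y) * v y := by
      intro u
      rw [key u (mem_sphere_zero_iff_norm.1 u.2)]
      rfl
    simp_rw [h1]
    have hM0 : 0 ≤ M := (norm_nonneg _).trans (hM 0)
    have hI : Integrable (Function.uncurry fun (u : Sp n) (y : EE n) =>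
        MK (sy n chis Lam r (u : EE n)) (x - y) * v y) ((sg n).prod volume) := by
      have hw : Integrable (fun y : EE n => C * M * ((1 + ‖x - y‖) ^ (n + 1))⁻¹) :=
        ((wt_int (n := n)).comp_sub_left x).const_mul _
      refine (hw.comp_snd (sg n)).mono' ?_ ?_
      · have h2 : Continuous (fun q : Sp n × EE n => (((q.1 : EE n), x - q.2) : EE n × EE n)) := by
          fun_prop
        have h3 : Continuous (fun q : Sp n × EE n =>
            MK (sy n chis Lam r (q.1 : EE n)) (x - q.2)) := by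
          have h4 : (fun q : Sp n × EE n => MK (sy n chis Lam r (q.1 : EE n)) (x - q.2)) =
              (fun q : EE n × EE n => MK (sy n chis Lam r q.1) q.2) ∘
                (fun q : Sp n × EE n => (((q.1 : EE n), x - q.2) : EE n × EE n)) := rfl
          rw [h4]
          exact (MK_cont rc_chis chis_nonneg chis_le_one r hL).comp h2
        exact (h3.measurable.mul (hv.comp measurable_snd)).aestronglyMeasurable
      · refine ae_of_all _ fun q => ?_
        rw [Function.uncurry, norm_mul]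
        calc ‖MK (sy n chis Lam r (q.1 : EE n)) (x - q.2)‖ * ‖v q.2‖ ≤
            (C * ((1 + ‖x - q.2‖) ^ (n + 1))⁻¹) * M :=
              mul_le_mul (hdec _ (mem_sphere_zero_iff_norm.1 q.1.2) _) (hM _) (norm_nonneg _)
                (by positivity)
          _ = C * M * ((1 + ‖x - q.2‖) ^ (n + 1))⁻¹ := by ring
    rw [integral_integral_swap hI]
    have h2 : ∀ y : EE n, ∫ u : Sp n, MK (sy n chis Lam r (u : EE n)) (x - y) * v y ∂(sg n) =
        ((md n r u₀ : ℝ) : ℂ) * (MK (cz n Lam) (x - y) * v y) := by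
      intro y
      rw [integral_mul_const, avg_MK hMDL hn hL hr hr8 hu, mul_assoc]
    simp_rw [h2]
    rw [integral_const_mul]
    congr 1
    exact (hC0 x).symm
  · exact band_cont hSEL hn rc_ch2 ch2_nonneg ch2_le_one hL hr hr8 hv hM

end Pool.Agent.H48.TN
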