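import Pool.Agent.H93.TN.TargetsA
import Pool.Agent.H19.LS.PLE

/-!
Tools for the modules SID and ORT: sector symbols, continuity of the kernels and of the bands.
-/

set_option autoImplicit false

namespace Pool.Agent.H48.TN

open MeasureTheory Set FourierTransform
open Pool.Agent.H93.TN Pool.Agent.H83.LS Pool.Agent.H93.AR Pool.Agent.H54.LS Pool.Agent.H14.LS
open Pool.Agent.H83.AR Pool.Agent.H84.BR Pool.Agent.H84.B2
open scoped ENNReal NNReal

/-! ### cutoffs -/

theorem eta_one {s : ℝ} (h : s ≤ 1) : eta0 s = 1 :=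
  Real.smoothTransition.one_of_one_le (by linarith)

theorem eta_zero {s : ℝ} (h : 2 ≤ s) : eta0 s = 0 :=
  Real.smoothTransition.zero_of_nonpos (by linarith)

theorem eta_nonneg (s : ℝ) : 0 ≤ eta0 s := Real.smoothTransition.nonneg _

theorem eta_le_one (s : ℝ) : eta0 s ≤ 1 := Real.smoothTransition.le_one _

theorem eta_smooth : ContDiff ℝ (⊤ : ℕ∞) eta0 :=
  Real.smoothTransition.contDiff.comp (contDiff_const.sub contDiff_id)

theorem eta_cont : Continuous eta0 := eta_smooth.continuous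

theorem ch2_one {s : ℝ} (h1 : 1 / 4 ≤ s) (h2 : s ≤ 4) : ch2 s = 1 := by
  unfold ch2
  rw [eta_one (by linarith), eta_zero (by linarith), sub_zero]

theorem ch2_supp {s : ℝ} (h : ch2 s ≠ 0) : 1 / 8 ≤ s ∧ s ≤ 8 := by
  unfold ch2 at h
  constructor
  · by_contra hs
    push Not at hs
    rw [eta_one (by linarith), eta_one (by linarith)] at h
    exact h (sub_self _)
  · by_contra hs
    push Not at hs
    rw [eta_zero (by linarith), eta_zero (by linarith)] at h
    exact h (sub_self _)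

theorem ch2_nonneg (s : ℝ) : 0 ≤ ch2 s := by
  unfold ch2
  rcases le_total s 4 with h | h
  · rw [eta_one (by linarith)]
    linarith [eta_le_one (8 * s)]
  · rw [eta_zero (s := 8 * s) (by linarith)]
    linarith [eta_nonneg (s / 4)]

theorem ch2_le_one (s : ℝ) : ch2 s ≤ 1 := by
  unfold ch2
  linarith [eta_le_one (s / 4), eta_nonneg (8 * s)]

theorem ch2_zero : ch2 0 = 0 := by
  by_contra h
  linarith [(ch2_supp h).1]

theorem chis_supp {s : ℝ} (h : chis s ≠ 0) : 1 / 4 ≤ s ∧ s ≤ 4 := by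
  unfold chis at h
  constructor
  · by_contra hs
    push Not at hs
    rw [eta_one (by linarith), eta_one (by linarith)] at h
    exact h (sub_self _)
  · by_contra hs
    push Not at hs
    rw [eta_zero (by linarith), eta_zero (by linarith)] at h
    exact h (sub_self _)

theorem chis_nonneg (s : ℝ) : 0 ≤ chis s := by
  unfold chis
  rcases le_total s 2 with h | h
  · rw [eta_one (by linarith)]
    linarith [eta_le_one (4 * s)]
  · rw [eta_zero (s := 4 * s) (by linarith)]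
    linarith [eta_nonneg (s / 2)]

theorem chis_le_one (s : ℝ) : chis s ≤ 1 := by
  unfold chis
  linarith [eta_le_one (s / 2), eta_nonneg (4 * s)]

theorem chis_zero : chis 0 = 0 := by
  by_contra h
  linarith [(chis_supp h).1]

theorem ch2_chis (s : ℝ) : ch2 s * chis s = chis s := by
  by_cases h : chis s = 0
  · rw [h, mul_zero]
  · rw [ch2_one (chis_supp h).1 (chis_supp h).2, one_mul]

theorem rc_ch2 : RC ch2 :=
  ⟨(eta_smooth.comp (contDiff_id.div_const 4)).sub
    (eta_smooth.comp (contDiff_const.mul contDiff_id)), fun _ h => ch2_supp h⟩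

theorem rc_chis : RC chis :=
  ⟨(eta_smooth.comp (contDiff_id.div_const 2)).sub
    (eta_smooth.comp (contDiff_const.mul contDiff_id)), fun s h => by
      have h1 := chis_supp h
      exact ⟨by linarith [h1.1], by linarith [h1.2]⟩⟩

/-! ### sector symbols -/

section

variable {n : ℕ}

theorem sy_supp {ψ : ℝ → ℝ} (hψ : RC ψ) {Lam r : ℝ} (hL : 0 < Lam) {u ξ : EE n}
    (h : sy n ψ Lam r u ξ ≠ 0) : Lam / 8 ≤ ‖ξ‖ ∧ ‖ξ‖ ≤ 8 * Lam := by
  have h1 : ψ (‖ξ‖ / Lam) ≠ 0 := by
    intro h0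
    apply h
    unfold sy
    rw [h0, zero_mul, Complex.ofReal_zero]
  obtain ⟨h2, h3⟩ := hψ.2 _ h1
  rw [le_div_iff₀ hL] at h2
  rw [div_le_iff₀ hL] at h3
  exact ⟨by linarith, h3⟩

theorem sy_cont {ψ : ℝ → ℝ} (hψ : RC ψ) {Lam : ℝ} (r : ℝ) (hL : 0 < Lam) :
    Continuous (fun q : EE n × EE n => sy n ψ Lam r q.1 q.2) := by
  rw [continuous_iff_continuousAt]
  rintro ⟨u, ξ⟩
  by_cases hξ : ξ = 0
  · subst hξ
    have h1 : (fun q : EE n × EE n => sy n ψ Lam r q.1 q.2) =ᶠ[nhds (u, (0 : EE n))]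
        fun _ => (0 : ℂ) := by
      have h2 : {q : EE n × EE n | ‖q.2‖ < Lam / 8} ∈ nhds (u, (0 : EE n)) := by
        apply IsOpen.mem_nhds
        · exact isOpen_lt (continuous_norm.comp continuous_snd) continuous_const
        · rw [Set.mem_ofPred_eq, norm_zero]
          positivity
      filter_upwards [h2] with q hq
      by_contra h
      have h3 := (sy_supp hψ hL h).1
      linarith
    exact (continuousAt_const).congr h1.symm
  · have hn : ‖ξ‖ ≠ 0 := norm_ne_zero_iff.2 hξ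
    unfold sy
    refine Complex.continuous_ofReal.continuousAt.comp (ContinuousAt.mul ?_ ?_)
    · exact hψ.1.continuous.continuousAt.comp
        ((continuousAt_snd.norm).div_const Lam)
    · refine eta_cont.continuousAt.comp ?_
      refine ContinuousAt.pow ?_ 2
      refine ContinuousAt.div_const ?_ r
      refine ContinuousAt.norm ?_
      refine ContinuousAt.sub ?_ continuousAt_fst
      exact ((continuousAt_snd.norm).inv₀ hn).smul continuousAt_snd

theorem sy_cont' {ψ : ℝ → ℝ} (hψ : RC ψ) {Lam : ℝ} (r : ℝ) (hL : 0 < Lam) (u : EE n) :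
    Continuous (sy n ψ Lam r u) := by
  have h1 : Continuous (fun ξ : EE n => ((u, ξ) : EE n × EE n)) := by fun_prop
  have h2 : sy n ψ Lam r u =
      (fun q : EE n × EE n => sy n ψ Lam r q.1 q.2) ∘ (fun ξ : EE n => ((u, ξ) : EE n × EE n)) :=
    rfl
  rw [h2]
  exact (sy_cont hψ r hL).comp h1

theorem sy_cont'' {ψ : ℝ → ℝ} (hψ : RC ψ) {Lam : ℝ} (r : ℝ) (hL : 0 < Lam) (ξ : EE n) :
    Continuous (fun u : EE n => sy n ψ Lam r u ξ) := by
  have h1 : Continuous (fun u : EE n => ((u, ξ) : EE n × EE n)) := by fun_prop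
  have h2 : (fun u : EE n => sy n ψ Lam r u ξ) =
      (fun q : EE n × EE n => sy n ψ Lam r q.1 q.2) ∘ (fun u : EE n => ((u, ξ) : EE n × EE n)) :=
    rfl
  rw [h2]
  exact (sy_cont hψ r hL).comp h1

theorem sy_norm {ψ : ℝ → ℝ} (h0 : ∀ s, 0 ≤ ψ s) (h1 : ∀ s, ψ s ≤ 1) (Lam r : ℝ) (u ξ : EE n) :
    ‖sy n ψ Lam r u ξ‖ ≤ 1 := by
  unfold sy
  rw [Complex.norm_real, Real.norm_eq_abs, abs_of_nonneg (mul_nonneg (h0 _) (eta_nonneg _))]
  exact mul_le_one₀ (h1 _) (eta_nonneg _) (eta_le_one _)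

theorem sy_int {ψ : ℝ → ℝ} (hψ : RC ψ) {Lam : ℝ} (r : ℝ) (hL : 0 < Lam) (u : EE n) :
    Integrable (sy n ψ Lam r u) := by
  refine (sy_cont' hψ r hL u).integrable_of_hasCompactSupport ?_
  refine HasCompactSupport.of_support_subset_isCompact
    (isCompact_closedBall (0 : EE n) (8 * Lam)) ?_
  intro ξ hξ
  rw [mem_closedBall_zero_iff]
  exact (sy_supp hψ hL hξ).2

theorem ball_int (R : ℝ) : Integrable ((Metric.closedBall (0 : EE n) R).indicator
    (fun _ => (1 : ℝ))) := by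
  rw [integrable_indicator_iff measurableSet_closedBall]
  exact integrableOn_const (measure_closedBall_lt_top).ne

theorem MK_cont {ψ : ℝ → ℝ} (hψ : RC ψ) (h0 : ∀ s, 0 ≤ ψ s) (h1 : ∀ s, ψ s ≤ 1) {Lam : ℝ}
    (r : ℝ) (hL : 0 < Lam) :
    Continuous (fun q : EE n × EE n => MK (sy n ψ Lam r q.1) q.2) := by
  unfold MK
  refine continuous_of_dominated
    (bound := (Metric.closedBall (0 : EE n) (8 * Lam)).indicator (fun _ => (1 : ℝ)))
    ?_ ?_ (ball_int _) ?_
  · intro q
    have h2 : Continuous (fun ξ : EE n => e (inner ℝ q.2 ξ)) :=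
      continuous_e.comp (continuous_const.inner continuous_id)
    exact (h2.mul (sy_cont' hψ r hL q.1)).aestronglyMeasurable
  · intro q
    refine ae_of_all _ fun ξ => ?_
    rw [norm_mul, norm_e, one_mul]
    by_cases h : sy n ψ Lam r q.1 ξ = 0
    · rw [h, norm_zero]
      exact Set.indicator_nonneg (fun _ _ => zero_le_one) _
    · rw [Set.indicator_of_mem (mem_closedBall_zero_iff.2 (sy_supp hψ hL h).2)]
      exact sy_norm h0 h1 _ _ _ _
  · refine ae_of_all _ fun ξ => ?_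
    have h2 : Continuous (fun q : EE n × EE n => e (inner ℝ q.2 ξ)) :=
      continuous_e.comp (continuous_snd.inner continuous_const)
    have h3 : Continuous (fun q : EE n × EE n => sy n ψ Lam r q.1 ξ) :=
      (sy_cont'' hψ r hL ξ).comp continuous_fst
    exact h2.mul h3

/-! ### decay of the kernels, continuity of the convolutions -/

theorem wt_int : Integrable (fun x : EE n => ((1 + ‖x‖) ^ (n + 1))⁻¹) := by
  have h := integrable_one_add_norm (E := EE n) (μ := volume) (r := (n + 1 : ℕ)) (by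
    rw [finrank_euclideanSpace_fin]; push_cast; linarith)
  refine h.congr (ae_of_all _ fun x => ?_)
  have h1 : 0 ≤ 1 + ‖x‖ := by positivity
  simp only
  rw [Real.rpow_neg h1, Real.rpow_natCast]

theorem dec (hSEL : T_SEL) (hn : 1 ≤ n) {ψ : ℝ → ℝ} (hψ : RC ψ) {Lam r : ℝ} (hL : 0 < Lam)
    (hr : 0 < r) (hr' : r ≤ 1 / 8) : ∃ C : ℝ, 0 ≤ C ∧ ∀ u : EE n, ‖u‖ = 1 → ∀ x : EE n,
      ‖MK (sy n ψ Lam r u) x‖ ≤ C * ((1 + ‖x‖) ^ (n + 1))⁻¹ := by
  obtain ⟨C, hC, h⟩ := hSEL n (n + 1) ψ hn hψ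
  have hm : 0 < min 1 (Lam * r) := lt_min one_pos (by positivity)
  refine ⟨C * Lam ^ n * ((min 1 (Lam * r)) ^ (n + 1))⁻¹, by positivity, fun u hu x => ?_⟩
  refine ((h Lam r u hL hr hr' hu).2.2.2.2 x).trans ?_
  rw [mul_assoc (C * Lam ^ n), ← mul_inv, ← mul_pow]
  refine mul_le_mul_of_nonneg_left ?_ (by positivity)
  refine inv_anti₀ (by positivity) (pow_le_pow_left₀ (by positivity) ?_ _)
  have h1 := min_le_left 1 (Lam * r)
  have h2 := min_le_right 1 (Lam * r)
  rw [mul_add, mul_one]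
  have h3 := mul_le_mul_of_nonneg_right h2 (norm_nonneg x)
  linarith

theorem conv_cont {P : Type} [TopologicalSpace P] [FirstCountableTopology P] (K : P → EE n → ℂ)
    (hK : Continuous (Function.uncurry K)) {C : ℝ}
    (hC : ∀ p x, ‖K p x‖ ≤ C * ((1 + ‖x‖) ^ (n + 1))⁻¹) {v : EE n → ℂ} (hv : Measurable v)
    {M : ℝ} (hM : ∀ x, ‖v x‖ ≤ M) :
    Continuous (fun q : P × EE n => cn (K q.1) v q.2) := by
  rw [continuous_iff_continuousAt]
  rintro ⟨p₀, x₀⟩
  have hM0 : 0 ≤ M := (norm_nonneg _).trans (hM 0)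
  have hC0 : 0 ≤ C := by
    have h := (norm_nonneg _).trans (hC p₀ 0)
    rw [norm_zero, add_zero, one_pow, inv_one, mul_one] at h
    exact h
  unfold cn
  refine continuousAt_of_dominated
    (bound := fun y => C * 2 ^ (n + 1) * M * ((1 + ‖x₀ - y‖) ^ (n + 1))⁻¹) ?_ ?_ ?_ ?_
  · refine Filter.Eventually.of_forall fun q => ?_
    have h3 : Continuous (fun y : EE n => ((q.1, q.2 - y) : P × EE n)) := by fun_prop
    have h4 : Continuous (fun y : EE n => K q.1 (q.2 - y)) := hK.comp h3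
    exact (h4.measurable.mul hv).aestronglyMeasurable
  · have h2 : {q : P × EE n | ‖q.2 - x₀‖ < 1} ∈ nhds (p₀, x₀) := by
      apply IsOpen.mem_nhds
      · exact isOpen_lt ((continuous_snd.sub continuous_const).norm) continuous_const
      · rw [Set.mem_ofPred_eq, sub_self, norm_zero]
        exact one_pos
    filter_upwards [h2] with q hq
    have hq' : ‖q.2 - x₀‖ < 1 := hq
    refine ae_of_all _ fun y => ?_
    rw [norm_mul]
    have h3 : ‖K q.1 (q.2 - y)‖ ≤ C * (2 ^ (n + 1) * ((1 + ‖x₀ - y‖) ^ (n + 1))⁻¹) := by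
      refine (hC _ _).trans (mul_le_mul_of_nonneg_left ?_ hC0)
      rw [← div_eq_mul_inv, le_div_iff₀ (by positivity), inv_mul_le_iff₀ (by positivity),
        ← mul_pow]
      refine pow_le_pow_left₀ (by positivity) ?_ _
      have h4 : ‖x₀ - y‖ ≤ ‖q.2 - y‖ + ‖q.2 - x₀‖ := by
        have h5 : x₀ - y = (q.2 - y) - (q.2 - x₀) := by abel
        rw [h5]
        exact norm_sub_le _ _
      linarith [norm_nonneg (q.2 - y)]
    calc ‖K q.1 (q.2 - y)‖ * ‖v y‖ ≤ C * (2 ^ (n + 1) * ((1 + ‖x₀ - y‖) ^ (n + 1))⁻¹) * M :=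
          mul_le_mul h3 (hM y) (norm_nonneg _) (by positivity)
      _ = _ := by ring
  · refine Integrable.const_mul ?_ _
    have h := (wt_int (n := n)).comp_sub_left x₀
    exact h
  · refine ae_of_all _ fun y => ?_
    refine ContinuousAt.mul ?_ continuousAt_const
    have h3 : Continuous (fun q : P × EE n => ((q.1, q.2 - y) : P × EE n)) := by fun_prop
    have h4 : Continuous (fun q : P × EE n => K q.1 (q.2 - y)) := hK.comp h3
    exact h4.continuousAt

/-- continuity of the bands -/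
theorem band_cont (hSEL : T_SEL) (hn : 1 ≤ n) {ψ : ℝ → ℝ} (hψ : RC ψ) (h0 : ∀ s, 0 ≤ ψ s)
    (h1 : ∀ s, ψ s ≤ 1) {Lam r : ℝ} (hL : 0 < Lam) (hr : 0 < r) (hr' : r ≤ 1 / 8)
    {v : EE n → ℂ} (hv : Measurable v) {M : ℝ} (hM : ∀ x, ‖v x‖ ≤ M) :
    Continuous (fun q : Sp n × EE n => cn (MK (sy n ψ Lam r (q.1 : EE n))) v q.2) := by
  obtain ⟨C, hC, h⟩ := dec hSEL hn hψ hL hr hr'
  have hk : Continuous (Function.uncurry (fun u : Sp n => MK (sy n ψ Lam r (u : EE n)))) := by
    have h2 : Continuous (fun q : Sp n × EE n => (((q.1 : EE n), q.2) : EE n × EE n)) := by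
      fun_prop
    have h3 : Function.uncurry (fun u : Sp n => MK (sy n ψ Lam r (u : EE n))) =
        (fun q : EE n × EE n => MK (sy n ψ Lam r q.1) q.2) ∘
          (fun q : Sp n × EE n => (((q.1 : EE n), q.2) : EE n × EE n)) := rfl
    rw [h3]
    exact (MK_cont hψ h0 h1 r hL).comp h2
  have hb : ∀ (u : Sp n) (x : EE n), ‖(fun u : Sp n => MK (sy n ψ Lam r (u : EE n))) u x‖ ≤
      C * ((1 + ‖x‖) ^ (n + 1))⁻¹ := fun u x => h u (mem_sphere_zero_iff_norm.1 u.2) x
  exact conv_cont (fun u : Sp n => MK (sy n ψ Lam r (u : EE n))) hk hb hv hM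

end

end Pool.Agent.H48.TN
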